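import Mathlib
import Pool.Agent.Helper60.SB.Defs3

set_option autoImplicit false

open Finset MeasureTheory ProbabilityTheory
open scoped ENNReal Real

namespace Pool.Agent.Helper13.SB

open Pool.Agent.Helper60.SB

/-! ### Gaussian shift -/

theorem gaussian_shift_real (c : ℝ) :
    gaussianReal c 1 = (gaussianReal 0 1).withDensity
      (fun y => ENNReal.ofReal (Real.exp (c * y - c ^ 2 / 2))) := by
  rw [gaussianReal_of_var_ne_zero _ one_ne_zero, gaussianReal_of_var_ne_zero _ one_ne_zero,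
    ← withDensity_mul _ (measurable_gaussianPDF 0 1) (by fun_prop)]
  congr 1
  funext y
  simp only [Pi.mul_apply, gaussianPDF]
  rw [← ENNReal.ofReal_mul (gaussianPDFReal_nonneg _ _ _)]
  congr 1
  simp only [gaussianPDFReal]
  have h : Real.exp (-(y - c) ^ 2 / (2 * ((1 : NNReal) : ℝ))) =
      Real.exp (-(y - 0) ^ 2 / (2 * ((1 : NNReal) : ℝ))) * Real.exp (c * y - c ^ 2 / 2) := by
    rw [← Real.exp_add]
    congr 1
    push_cast
    ring
  rw [h]
  ring

theorem pi_withDensity {ι : Type} [Fintype ι] (ν : Measure ℝ) [IsProbabilityMeasure ν]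
    (g : ι → ℝ → ℝ≥0∞) (hg : ∀ i, Measurable (g i))
    [∀ i, SigmaFinite (ν.withDensity (g i))] :
    Measure.pi (fun i => ν.withDensity (g i)) =
      (Measure.pi fun _ : ι => ν).withDensity (fun y => ∏ i, g i (y i)) := by
  refine Measure.pi_eq fun s hs => ?_
  rw [withDensity_apply _ (MeasurableSet.univ_pi hs), ← lintegral_indicator (MeasurableSet.univ_pi hs)]
  have h1 : (Set.univ.pi s).indicator (fun y : ι → ℝ => ∏ i, g i (y i)) =
      fun y => ∏ i, (s i).indicator (g i) (y i) := by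
    funext y
    by_cases hy : y ∈ Set.univ.pi s
    · rw [Set.indicator_of_mem hy]
      refine Finset.prod_congr rfl fun i _ => ?_
      rw [Set.indicator_of_mem (hy i (Set.mem_univ i))]
    · rw [Set.indicator_of_notMem hy]
      simp only [Set.mem_univ_pi, not_forall] at hy
      obtain ⟨i, hi⟩ := hy
      exact (Finset.prod_eq_zero (Finset.mem_univ i) (Set.indicator_of_notMem hi _)).symm
  rw [h1]
  have hind : iIndepFun (fun i (y : ι → ℝ) => (s i).indicator (g i) (y i))
      (Measure.pi fun _ : ι => ν) :=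
    iIndepFun_pi (X := fun i => (s i).indicator (g i))
      (fun i => ((hg i).indicator (hs i)).aemeasurable)
  rw [lintegral_prod_eq_prod_lintegral_of_indepFun Finset.univ _ hind
    (fun i => ((hg i).indicator (hs i)).comp (measurable_pi_apply i))]
  refine Finset.prod_congr rfl fun i _ => ?_
  have h2 : ∫⁻ y : ι → ℝ, (s i).indicator (g i) (y i) ∂(Measure.pi fun _ : ι => ν) =
      ∫⁻ z, (s i).indicator (g i) z ∂ν :=
    (measurePreserving_eval (fun _ : ι => ν) i).lintegral_comp ((hg i).indicator (hs i))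
  rw [h2, withDensity_apply _ (hs i), ← lintegral_indicator (hs i)]

theorem gau_map_neg (ι : Type) [Fintype ι] : (gau ι).map (fun y => -y) = gau ι := by
  unfold gau
  have h : (fun y : ι → ℝ => -y) = fun y i => (fun z : ℝ => -z) (y i) := by
    funext y i; rfl
  rw [h, Measure.pi_map_pi (fun _ => measurable_neg.aemeasurable)]
  congr 1
  funext i
  rw [gaussianReal_map_neg, neg_zero]

theorem gau_map_sub {ι : Type} [Fintype ι] (x : ι → ℝ) :
    (gau ι).map (fun y => y - x) = (gau ι).withDensity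
      (fun y => ENNReal.ofReal (Real.exp (-(∑ i, x i * y i) - (∑ i, x i ^ 2) / 2))) := by
  have h : (fun y : ι → ℝ => y - x) = fun y i => (fun z : ℝ => z - x i) (y i) := by
    funext y i; rfl
  have h1 : (gau ι).map (fun y => y - x) = Measure.pi (fun i => gaussianReal (-x i) 1) := by
    unfold gau
    rw [h]
    have : ∀ i, (gaussianReal 0 1).map (fun z : ℝ => z - x i) = gaussianReal (-x i) 1 := by
      intro i
      rw [gaussianReal_map_sub_const, zero_sub]
    have hs : ∀ i, SigmaFinite ((gaussianReal 0 1).map (fun z : ℝ => z - x i)) := by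
      intro i; rw [this i]; infer_instance
    rw [Measure.pi_map_pi (f := fun i (z : ℝ) => z - x i)
      (fun i => (measurable_id.sub_const (x i)).aemeasurable)]
    congr 1
    funext i
    exact this i
  rw [h1]
  have h2 : (fun i => gaussianReal (-x i) 1) = fun i => (gaussianReal 0 1).withDensity
      ((fun i y => ENNReal.ofReal (Real.exp (-x i * y - (-x i) ^ 2 / 2))) i) := by
    funext i
    exact gaussian_shift_real (-x i)
  have hs : ∀ i, SigmaFinite ((gaussianReal 0 1).withDensity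
      ((fun i y => ENNReal.ofReal (Real.exp (-x i * y - (-x i) ^ 2 / 2))) i)) := by
    intro i
    have := congrFun h2 i
    simp only at this
    rw [← this]
    infer_instance
  rw [h2, pi_withDensity (gaussianReal 0 1) _ (fun i => by fun_prop)]
  unfold gau
  congr 1
  funext y
  rw [← ENNReal.ofReal_prod_of_nonneg (fun i _ => (Real.exp_pos _).le), ← Real.exp_sum]
  congr 2
  rw [Finset.sum_sub_distrib, ← Finset.sum_div]
  congr 1
  · rw [← Finset.sum_neg_distrib]
    refine Finset.sum_congr rfl fun i _ => by ring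
  · congr 1
    refine Finset.sum_congr rfl fun i _ => by ring

/-- A shifted symmetric set is not much smaller. -/
theorem gau_shift {ι : Type} [Fintype ι] (x : ι → ℝ) (A : Set (ι → ℝ)) (hA : MeasurableSet A)
    (hsym : ∀ y, y ∈ A ↔ -y ∈ A) :
    ENNReal.ofReal (Real.exp (-(∑ i, x i ^ 2) / 2)) * gau ι A ≤ gau ι {y | y - x ∈ A} := by
  have hmeas : Measurable (fun y : ι → ℝ => y - x) := by fun_prop
  have h1 : gau ι {y | y - x ∈ A} = ((gau ι).map (fun y => y - x)) A := by
    rw [Measure.map_apply hmeas hA]; rfl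
  rw [h1, gau_map_sub, withDensity_apply _ hA]
  set c := Real.exp (-(∑ i, x i ^ 2) / 2) with hc
  have hc0 : 0 ≤ c := (Real.exp_pos _).le
  have h2 : ∀ y : ι → ℝ, ENNReal.ofReal (Real.exp (-(∑ i, x i * y i) - (∑ i, x i ^ 2) / 2)) =
      ENNReal.ofReal c * ENNReal.ofReal (Real.exp (-(∑ i, x i * y i))) := by
    intro y
    rw [← ENNReal.ofReal_mul hc0, hc, ← Real.exp_add]
    congr 2
    ring
  simp_rw [h2]
  rw [lintegral_const_mul _ (by fun_prop)]
  gcongr
  -- symmetrize
  set J := ∫⁻ y in A, ENNReal.ofReal (Real.exp (-(∑ i, x i * y i))) ∂(gau ι) with hJ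
  have hJ' : J = ∫⁻ y in A, ENNReal.ofReal (Real.exp (∑ i, x i * y i)) ∂(gau ι) := by
    have hm : Measurable (fun y : ι → ℝ => -y) := measurable_neg
    have h3 : ∫⁻ y, A.indicator (fun y => ENNReal.ofReal (Real.exp (-(∑ i, x i * y i)))) y
        ∂((gau ι).map (fun y => -y)) =
        ∫⁻ y, A.indicator (fun y => ENNReal.ofReal (Real.exp (-(∑ i, x i * y i)))) (-y) ∂(gau ι) :=
      lintegral_map (Measurable.indicator (by fun_prop) hA) hm
    rw [gau_map_neg, lintegral_indicator hA] at h3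
    rw [hJ, h3, ← lintegral_indicator hA]
    refine lintegral_congr fun y => ?_
    by_cases hy : y ∈ A
    · rw [Set.indicator_of_mem hy, Set.indicator_of_mem ((hsym y).1 hy)]
      congr 2
      rw [← Finset.sum_neg_distrib]
      refine Finset.sum_congr rfl fun i _ => ?_
      simp
    · rw [Set.indicator_of_notMem hy, Set.indicator_of_notMem (fun h => hy ((hsym y).2 h))]
  have h4 : 2 * gau ι A ≤ J + J := by
    nth_rewrite 2 [hJ']
    rw [hJ, ← lintegral_add_left (by fun_prop)]
    calc 2 * gau ι A = ∫⁻ _ in A, 2 ∂(gau ι) := by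
          rw [lintegral_const, Measure.restrict_apply_univ]
      _ ≤ _ := by
          refine lintegral_mono fun y => ?_
          rw [← ENNReal.ofReal_add (Real.exp_pos _).le (Real.exp_pos _).le]
          have h5 : (2 : ℝ≥0∞) = ENNReal.ofReal 2 := by norm_num
          rw [h5]
          apply ENNReal.ofReal_le_ofReal
          have h6 := Real.one_le_cosh (∑ i, x i * y i)
          rw [Real.cosh_eq] at h6
          linarith
  rw [← two_mul] at h4
  exact (ENNReal.mul_le_mul_iff_right (by norm_num) (by norm_num)).1 h4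

/-! ### Seminorms on a finite dimensional space -/

theorem seminorm_le_sum {ι : Type} [Fintype ι] [DecidableEq ι] (q : Seminorm ℝ (ι → ℝ)) (y : ι → ℝ) :
    q y ≤ ∑ i, |y i| * q (Pi.single i 1) := by
  have h : y = ∑ i, y i • (Pi.single i (1 : ℝ) : ι → ℝ) := by
    funext j
    simp [Finset.sum_apply, Pi.single_apply]
  conv_lhs => rw [h]
  refine (Finset.le_sum_of_subadditive q (map_zero q).le (map_add_le_add q) _ _).trans
    (le_of_eq ?_)
  refine Finset.sum_congr rfl fun i _ => ?_
  rw [map_smul_eq_mul, Real.norm_eq_abs]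

theorem seminorm_continuous {ι : Type} [Fintype ι] (q : Seminorm ℝ (ι → ℝ)) : Continuous q := by
  classical
  set C : ℝ := ∑ i, q (Pi.single i 1) with hC
  have hC0 : 0 ≤ C := Finset.sum_nonneg fun i _ => apply_nonneg q _
  have h : ∀ y z : ι → ℝ, dist (q y) (q z) ≤ C.toNNReal * dist y z := by
    intro y z
    rw [Real.dist_eq, Real.coe_toNNReal _ hC0]
    refine (abs_sub_map_le_sub q y z).trans ((seminorm_le_sum q _).trans ?_)
    rw [hC, Finset.sum_mul]
    refine Finset.sum_le_sum fun i _ => ?_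
    rw [mul_comm]
    refine mul_le_mul_of_nonneg_left ?_ (apply_nonneg q _)
    rw [Pi.sub_apply, ← Real.dist_eq]
    exact dist_le_pi_dist y z i
  exact (LipschitzWith.of_dist_le_mul h).continuous

theorem seminorm_integrable {ι : Type} [Fintype ι] (q : Seminorm ℝ (ι → ℝ)) :
    Integrable q (gau ι) := by
  classical
  have h1 : ∀ i, Integrable (fun y : ι → ℝ => y i) (gau ι) := by
    intro i
    have h2 : Integrable (fun z : ℝ => z) (gaussianReal 0 1) :=
      (memLp_id_gaussianReal 1).integrable (by norm_num)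
    exact (measurePreserving_eval (fun _ : ι => gaussianReal 0 1) i).integrable_comp_of_integrable h2
  have h2 : Integrable (fun y : ι → ℝ => ∑ i, |y i| * q (Pi.single i 1)) (gau ι) :=
    integrable_finsetSum _ fun i _ => (h1 i).abs.mul_const _
  refine h2.mono (seminorm_continuous q).aestronglyMeasurable (Filter.Eventually.of_forall fun y => ?_)
  rw [Real.norm_of_nonneg (apply_nonneg q y), Real.norm_of_nonneg
    (Finset.sum_nonneg fun i _ => mul_nonneg (abs_nonneg _) (apply_nonneg q _))]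
  exact seminorm_le_sum q y

instance gau_prob (ι : Type) [Fintype ι] : IsProbabilityMeasure (gau ι) := by
  unfold gau; infer_instance

/-- Markov. -/
theorem gau_ball {ι : Type} [Fintype ι] (q : Seminorm ℝ (ι → ℝ)) (l : ℝ) (hl : 0 < l)
    (hq : ∫ y, q y ∂(gau ι) ≤ l) : ENNReal.ofReal (1 / 2) ≤ gau ι {y | q y < 2 * l} := by
  have h1 := mul_meas_ge_le_integral_of_nonneg (μ := gau ι) (f := q)
    (Filter.Eventually.of_forall fun y => apply_nonneg q y) (seminorm_integrable q) (2 * l)
  have h2 : (gau ι).real {y | 2 * l ≤ q y} ≤ 1 / 2 := by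
    have h3 : 2 * l * (gau ι).real {y | 2 * l ≤ q y} ≤ l := h1.trans hq
    nlinarith
  have hm : MeasurableSet {y : ι → ℝ | 2 * l ≤ q y} :=
    measurableSet_le measurable_const (seminorm_continuous q).measurable
  have h3 : {y : ι → ℝ | q y < 2 * l} = {y | 2 * l ≤ q y}ᶜ := by
    ext y; simp
  have h4 : (gau ι).real {y | q y < 2 * l} = 1 - (gau ι).real {y | 2 * l ≤ q y} := by
    rw [h3, probReal_compl_eq_one_sub hm]
  rw [ENNReal.ofReal_le_iff_le_toReal (measure_ne_top _ _)]
  change 1 / 2 ≤ (gau ι).real {y | q y < 2 * l}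
  linarith

/-- The packing bound. -/
theorem packing {ι : Type} [Fintype ι] (q : Seminorm ℝ (ι → ℝ)) (l : ℝ) (hl : 0 < l)
    (hq : ∫ y, q y ∂(gau ι) ≤ l) (ε : ℝ) (hε : 0 < ε) (S : Finset (ι → ℝ))
    (hS : ∀ x ∈ S, ∑ i, x i ^ 2 ≤ 1) (hsep : ∀ x ∈ S, ∀ y ∈ S, x ≠ y → ε < q (x - y)) :
    (S.card : ℝ) ≤ Real.exp (8 * (l / ε) ^ 2 + Real.log 2) := by
  set t : ℝ := 4 * l / ε with ht
  have ht0 : 0 < t := by positivity
  set A : Set (ι → ℝ) := {y | q y < 2 * l} with hA
  have hAm : MeasurableSet A := measurableSet_lt (seminorm_continuous q).measurable measurable_const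
  have hAs : ∀ y, y ∈ A ↔ -y ∈ A := by
    intro y
    simp only [hA, Set.mem_ofPred_eq, map_neg_eq_map]
  have hball := gau_ball q l hl hq
  set B : (ι → ℝ) → Set (ι → ℝ) := fun x => {y | y - t • x ∈ A} with hB
  have hBm : ∀ x ∈ S, MeasurableSet (B x) := fun x _ =>
    (show Measurable (fun y : ι → ℝ => y - t • x) by fun_prop) hAm
  have hdisj : (S : Set (ι → ℝ)).PairwiseDisjoint B := by
    intro x hx x' hx' hne
    rw [Function.onFun, Set.disjoint_left]
    intro y hy hy'
    have h1 : q (y - t • x) < 2 * l := hy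
    have h2 : q (y - t • x') < 2 * l := hy'
    have h3 : q (t • (x - x')) < 4 * l := by
      have h4 : t • (x - x') = (y - t • x') - (y - t • x) := by
        rw [smul_sub]; abel
      rw [h4]
      have := map_sub_le_add q (y - t • x') (y - t • x)
      linarith
    rw [map_smul_eq_mul, Real.norm_of_nonneg ht0.le] at h3
    have h5 := hsep x hx x' hx' hne
    have h6 : t * ε = 4 * l := by rw [ht]; field_simp
    have h7 : t * ε < t * q (x - x') := mul_lt_mul_of_pos_left h5 ht0
    linarith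
  have hsum : ∑ x ∈ S, gau ι (B x) ≤ 1 := by
    rw [← measure_biUnion_finset hdisj hBm]
    exact prob_le_one
  have hlow : ∀ x ∈ S, ENNReal.ofReal (Real.exp (-(8 * (l / ε) ^ 2)) * (1 / 2)) ≤ gau ι (B x) := by
    intro x hx
    have h1 := gau_shift (t • x) A hAm hAs
    refine le_trans ?_ h1
    rw [ENNReal.ofReal_mul (Real.exp_pos _).le]
    refine mul_le_mul' ?_ hball
    apply ENNReal.ofReal_le_ofReal
    apply Real.exp_le_exp.2
    have h2 : ∑ i, (t • x) i ^ 2 = t ^ 2 * ∑ i, x i ^ 2 := by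
      rw [Finset.mul_sum]
      refine Finset.sum_congr rfl fun i _ => ?_
      simp only [Pi.smul_apply, smul_eq_mul]
      ring
    rw [h2]
    have h3 : t ^ 2 * ∑ i, x i ^ 2 ≤ t ^ 2 := by
      have := hS x hx
      nlinarith [sq_nonneg t]
    have h4 : t ^ 2 = 16 * (l / ε) ^ 2 := by rw [ht]; ring
    rw [h4] at h3 ⊢
    linarith
  have h1 : (S.card : ℝ≥0∞) * ENNReal.ofReal (Real.exp (-(8 * (l / ε) ^ 2)) * (1 / 2)) ≤ 1 := by
    rw [← nsmul_eq_mul]
    exact (Finset.card_nsmul_le_sum _ _ _ hlow).trans hsum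
  have h2 : (S.card : ℝ) * (Real.exp (-(8 * (l / ε) ^ 2)) * (1 / 2)) ≤ 1 := by
    have h3 : (S.card : ℝ≥0∞) = ENNReal.ofReal (S.card : ℝ) := (ENNReal.ofReal_natCast _).symm
    rw [h3, ← ENNReal.ofReal_mul (Nat.cast_nonneg _)] at h1
    have h4 : (1 : ℝ≥0∞) = ENNReal.ofReal 1 := ENNReal.ofReal_one.symm
    rw [h4] at h1
    exact (ENNReal.ofReal_le_ofReal_iff (by norm_num)).1 h1
  rw [Real.exp_add, Real.exp_log (by norm_num)]
  rw [Real.exp_neg] at h2
  have key : ∀ a E : ℝ, 0 < E → a * (E⁻¹ * (1 / 2)) ≤ 1 → a ≤ E * 2 := by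
    intro a E hE h
    have h4 : a * (E⁻¹ * (1 / 2)) = a / (E * 2) := by field_simp
    rwa [h4, div_le_one (by positivity)] at h
  exact key _ _ (Real.exp_pos _) h2

/-- A maximal separated set is a net. -/
theorem exists_net {V : Type*} [AddCommGroup V] [Module ℝ V] (q : Seminorm ℝ V) (K : Set V) (ε : ℝ)
    (hε : 0 < ε) (M : ℝ) (hM : ∀ S : Finset V, (∀ x ∈ S, x ∈ K) →
      (∀ x ∈ S, ∀ y ∈ S, x ≠ y → ε < q (x - y)) → (S.card : ℝ) ≤ M) :
    ∃ S : Finset V, (∀ x ∈ S, x ∈ K) ∧ (S.card : ℝ) ≤ M ∧ ∀ a ∈ K, ∃ y ∈ S, q (a - y) ≤ ε := by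
  classical
  let P : Finset V → Prop := fun S => (∀ x ∈ S, x ∈ K) ∧ (∀ x ∈ S, ∀ y ∈ S, x ≠ y → ε < q (x - y))
  set T : Set ℕ := {n | ∃ S : Finset V, P S ∧ S.card = n} with hT
  have hTne : T.Nonempty := ⟨0, ∅, ⟨by simp, by simp⟩, rfl⟩
  have hTb : BddAbove T := by
    refine ⟨⌊M⌋₊, ?_⟩
    rintro n ⟨S, hS, rfl⟩
    exact Nat.le_floor (hM S hS.1 hS.2)
  obtain ⟨S, hS, hSc⟩ := Nat.sSup_mem hTne hTb
  refine ⟨S, hS.1, hM S hS.1 hS.2, fun a ha => ?_⟩
  by_contra hcon
  push Not at hcon
  have haS : a ∉ S := by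
    intro h
    have := hcon a h
    rw [sub_self, map_zero] at this
    linarith
  have hP : P (insert a S) := by
    constructor
    · intro x hx
      rcases Finset.mem_insert.1 hx with rfl | hx
      · exact ha
      · exact hS.1 x hx
    · intro x hx y hy hxy
      rcases Finset.mem_insert.1 hx with h1 | h1
      · rcases Finset.mem_insert.1 hy with h2 | h2
        · exact absurd (h1.trans h2.symm) hxy
        · rw [h1]
          exact hcon y h2
      · rcases Finset.mem_insert.1 hy with h2 | h2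
        · rw [h2, map_sub_rev]
          exact hcon x h1
        · exact hS.2 x h1 y h2 hxy
  have h1 : (insert a S).card ≤ sSup T := le_csSup hTb ⟨_, hP, rfl⟩
  rw [Finset.card_insert_of_notMem haS, hSc] at h1
  omega

/-- Module U1: the dual Sudakov inequality. -/
theorem dual_sudakov {ι : Type} [Fintype ι] (q : Seminorm ℝ (ι → ℝ)) (l : ℝ) (hl : 0 < l)
    (hq : ∫ y, q y ∂(gau ι) ≤ l) (ε : ℝ) (hε : 0 < ε) :
    Cov {y : ι → ℝ | ∑ i, y i ^ 2 ≤ 1} (fun a y => q (a - y) ≤ ε) (8 * (l / ε) ^ 2 + Real.log 2) := by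
  obtain ⟨S, _, hc, hnet⟩ := exists_net q {y : ι → ℝ | ∑ i, y i ^ 2 ≤ 1} ε hε
    (Real.exp (8 * (l / ε) ^ 2 + Real.log 2)) (fun S h1 h2 => packing q l hl hq ε hε S h1 h2)
  exact ⟨S, hc, hnet⟩

end Pool.Agent.Helper13.SB
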